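import Pool.Agent.Q95.CW.Main

namespace Pool.Agent.Results.MP_28c202_co.MajNE
open Finset Polynomial

/-- The order of `NE_{2,t}`.  The label `(i-1)t+k` of the problem (`i ∈ {1,2}`, `k ∈ {1,…,t}`) is
written `v = (i-1)t+(k-1) ∈ {0,…,2t-1}` here (all labels shifted by one), so `i-1 = v / t` and
`k-1 = v % t`.  `Le t u v` says `u ⪯ v`. -/
def Le (t u v : ℕ) : Prop := v / t ≤ u / t ∧ v % t ≤ u % t

/-- `π` lists the elements of `NE_{2,t}` in an order compatible with `⪯`. -/
def IsLinExt (t : ℕ) (π : Equiv.Perm (Fin (2 * t))) : Prop :=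
  ∀ a b : Fin (2 * t), Le t (π a) (π b) → π a ≠ π b → a < b

/-- `π` avoids the pattern `123`. -/
def Avoids123 {m : ℕ} (π : Equiv.Perm (Fin m)) : Prop :=
  ¬ ∃ a b c : Fin m, a < b ∧ b < c ∧ π a < π b ∧ π b < π c

/-- The major index: the sum of the positions `i` (counted from one) with `w(i) > w(i+1)`. -/
def maj {m : ℕ} (w : Fin m → ℕ) : ℕ :=
  ∑ i : Fin m, if h : (i : ℕ) + 1 < m then
    (if w ⟨(i : ℕ) + 1, h⟩ < w i then (i : ℕ) + 1 else 0) else 0

/-- Catalan words of length `2n`: `n` zeros, `n` ones, every initial segment has at least as many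
zeros as ones. -/
def IsCatalanWord (n : ℕ) (w : Fin (2 * n) → Fin 2) : Prop :=
  (univ.filter fun i => w i = 0).card = n ∧ (univ.filter fun i => w i = 1).card = n ∧
    ∀ k : ℕ, k ≤ 2 * n → (univ.filter fun i : Fin (2 * n) => (i : ℕ) < k ∧ w i = 1).card ≤
      (univ.filter fun i : Fin (2 * n) => (i : ℕ) < k ∧ w i = 0).card

open Classical in
/-- `NE_{2,t}(123)[q]`. -/
noncomputable def NEpoly (t : ℕ) : ℤ[X] :=
  ∑ π ∈ univ.filter (fun π : Equiv.Perm (Fin (2 * t)) => IsLinExt t π ∧ Avoids123 π),
    X ^ maj (fun i => (π i : ℕ))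

open Classical in
/-- `c_n(q)`. -/
noncomputable def catPoly (n : ℕ) : ℤ[X] :=
  ∑ w ∈ univ.filter (fun w : Fin (2 * n) → Fin 2 => IsCatalanWord n w),
    X ^ maj (fun i => (w i : ℕ))

open Pool.Agent.Q95.CW in
/-- the labelling -/
def L (t : ℕ) : Lab t where
  lab := fun c k => if c = 0 then t + k else k
  typ := fun v => if v < t then 1 else 0
  idx := fun v => if v < t then v else v - t
  R := fun u v => Le t u v ∧ u ≠ v
  lt := by
    intro c k hk
    split_ifs <;> omega
  typ_lab := by
    intro c k hk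
    by_cases hc : c = 0
    · rw [if_pos hc, if_neg (by omega)]
      exact hc.symm
    · rw [if_neg hc, if_pos hk]
      have h1 := c.2
      have h2 : (c : ℕ) ≠ 0 := fun h => hc (Fin.ext h)
      apply Fin.ext
      show 1 = (c : ℕ)
      omega
  idx_lab := by
    intro c k hk
    by_cases hc : c = 0
    · rw [if_pos hc, if_neg (by omega)]
      omega
    · rw [if_neg hc, if_pos hk]
  idx_lt := by
    intro v hv
    split_ifs <;> omega
  lab_typ := by
    intro v hv
    by_cases h : v < t
    · rw [if_pos h, if_pos h, if_neg (by decide)]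
    · rw [if_neg h, if_neg h, if_pos rfl]
      omega
  hR := by
    intro u v hu hv
    have key : ∀ a, a < 2 * t → (a / t = if a < t then 0 else 1) ∧
        (a % t = if a < t then a else a - t) := by
      intro a ha
      by_cases h : a < t
      · rw [if_pos h, if_pos h]
        exact ⟨Nat.div_eq_of_lt h, Nat.mod_eq_of_lt h⟩
      · rw [if_neg h, if_neg h]
        have h2 : a = (a - t) + t := by omega
        have h3 : a - t < t := by omega
        have h4 : 0 < t := by omega
        constructor
        · rw [h2, Nat.add_div_right _ h4, Nat.div_eq_of_lt h3]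
        · conv_lhs => rw [h2]
          rw [Nat.add_mod_right, Nat.mod_eq_of_lt h3]
    unfold Le
    rw [(key u hu).1, (key u hu).2, (key v hv).1, (key v hv).2]
    have e : ((if v < t then 0 else 1) ≤ (if u < t then 0 else 1) : Prop) ↔
        ((if u < t then (1 : Fin 2) else 0) ≤ (if v < t then 1 else 0)) := by
      by_cases h1 : u < t <;> by_cases h2 : v < t <;> simp [h1, h2]
    rw [← e, and_assoc]

open Pool.Agent.Q95.CW in
lemma isLE_iff (t : ℕ) (π : Equiv.Perm (Fin (2 * t))) : IsLE (L t) π ↔ IsLinExt t π := by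
  unfold IsLE IsLinExt
  constructor
  · intro h a b h1 h2
    exact h a b ⟨h1, fun h3 => h2 (Fin.ext h3)⟩
  · intro h a b h1
    exact h a b h1.1 (fun h3 => h1.2 (congrArg Fin.val h3))

open Pool.Agent.Q95.CW in
lemma step (t : ℕ) (π : Equiv.Perm (Fin (2 * t))) (hπ : IsLE (L t) π) (i : Fin (2 * t))
    (hi : (i : ℕ) + 1 < 2 * t) :
    ((π ⟨i + 1, hi⟩ : ℕ) < π i ↔ ¬ ((wd (L t) π ⟨i + 1, hi⟩ : ℕ) < wd (L t) π i)) := by
  have hu := (π ⟨i + 1, hi⟩).2
  have hv := (π i).2
  have ht : ∀ j, wd (L t) π j = if (π j : ℕ) < t then 1 else 0 := fun j => rfl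
  rw [ht, ht]
  by_cases h1 : (π ⟨i + 1, hi⟩ : ℕ) < t <;> by_cases h2 : (π i : ℕ) < t
  · simp only [h1, h2, if_true, lt_irrefl, not_false_eq_true, iff_true]
    by_contra hc
    have hne : (π ⟨i + 1, hi⟩ : ℕ) ≠ π i := by
      intro h
      have := π.injective (Fin.ext h)
      have := congrArg Fin.val this
      simp at this
    have h3 := hπ ⟨i + 1, hi⟩ i (by
      rw [(L t).hR _ _ hu hv]
      refine ⟨?_, ?_, hne⟩
      · show (if _ then _ else _) ≤ (if _ then _ else _)
        rw [if_pos h1, if_pos h2]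
      · show (if _ then _ else _) ≤ (if _ then _ else _)
        rw [if_pos h1, if_pos h2]
        omega)
    have h4 : (i : ℕ) + 1 < i := h3
    omega
  · simp only [h1, h2, if_true, if_false]
    constructor
    · intro _; decide
    · intro _; omega
  · simp only [h1, h2, if_true, if_false]
    constructor
    · intro _; omega
    · intro h; exact absurd (by decide) h
  · simp only [h1, h2, if_false, lt_irrefl, not_false_eq_true, iff_true]
    by_contra hc
    have hne : (π ⟨i + 1, hi⟩ : ℕ) ≠ π i := by
      intro h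
      have := π.injective (Fin.ext h)
      have := congrArg Fin.val this
      simp at this
    have h3 := hπ ⟨i + 1, hi⟩ i (by
      rw [(L t).hR _ _ hu hv]
      refine ⟨?_, ?_, hne⟩
      · show (if _ then _ else _) ≤ (if _ then _ else _)
        rw [if_neg h1, if_neg h2]
      · show (if _ then _ else _) ≤ (if _ then _ else _)
        rw [if_neg h1, if_neg h2]
        omega)
    have h4 : (i : ℕ) + 1 < i := h3
    omega

/-- linear extensions of `NE_{2,t}` avoid `123` -/
lemma avoids (t : ℕ) (π : Equiv.Perm (Fin (2 * t))) (hπ : IsLinExt t π) : Avoids123 π := by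
  rintro ⟨a, b, c, hab, hbc, h1, h2⟩
  have key : ∀ x y : Fin (2 * t), x < y → π x < π y → ((π x : ℕ) < t ∧ t ≤ (π y : ℕ)) := by
    intro x y hxy hlt
    by_contra hc
    have hlt' : (π x : ℕ) < π y := hlt
    have hx := (π x).2
    have hy := (π y).2
    have h3 : y < x := by
      apply hπ
      · have hl := ((L t).hR (π y) (π x) hy hx).2 ⟨?_, ?_, by omega⟩
        · exact hl.1
        · show (if _ then _ else _) ≤ (if _ then _ else _)
          split_ifs
          · exact le_rfl
          · omega
          · decide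
          · exact le_rfl
        · show (if (π x : ℕ) < t then (π x : ℕ) else (π x : ℕ) - t) ≤
            (if (π y : ℕ) < t then (π y : ℕ) else (π y : ℕ) - t)
          split_ifs <;> omega
      · intro h
        rw [h] at hlt
        exact lt_irrefl _ hlt
    exact lt_asymm hxy h3
  have k1 := key a b hab h1
  have k2 := key b c hbc h2
  omega

/-- For every `t ≥ 1`, `NE_{2,t}(123)[q] = q^{t²} c_t(q)`. -/
theorem result (t : ℕ) (_ht : 1 ≤ t) : NEpoly t = X ^ (t ^ 2) * catPoly t := by
  classical
  apply Pool.Agent.Q95.CW.poly_eq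
  intro x h0 h1
  unfold NEpoly catPoly
  rw [map_mul, map_sum, map_sum]
  simp only [map_pow, aeval_X]
  have hmain := Pool.Agent.Q95.CW.main_of (L := L t) (n := t) ?_ h0 h1
  · have e1 : (univ.filter (fun π : Equiv.Perm (Fin (2 * t)) => IsLinExt t π ∧ Avoids123 π)) =
        univ.filter (fun π : Equiv.Perm (Fin (2 * t)) => Pool.Agent.Q95.CW.IsLE (L t) π) := by
      ext π
      simp only [mem_filter, mem_univ, true_and, isLE_iff]
      exact ⟨fun h => h.1, fun h => ⟨h, avoids t π h⟩⟩
    have e2 : (univ.filter (fun w : Fin (2 * t) → Fin 2 => IsCatalanWord t w)) =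
        univ.filter (fun w : Fin (2 * t) → Fin 2 => Pool.Agent.Q95.CW.IsCat w) := by
      ext w
      simp only [mem_filter, mem_univ, true_and]
      have hall : ∀ c : Fin 2, (univ.filter fun i : Fin (2 * t) => w i = c).card =
          Pool.Agent.Q95.CW.cnt w c (2 * t) := by
        intro c
        unfold Pool.Agent.Q95.CW.cnt
        congr 1
        ext i
        have := i.2
        simp only [mem_filter, mem_univ, true_and]
        tauto
      have hadd := Pool.Agent.Q95.CW.cnt_add w (le_refl (2 * t))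
      unfold IsCatalanWord Pool.Agent.Q95.CW.IsCat
      rw [hall, hall]
      constructor
      · rintro ⟨a1, a2, a3⟩
        exact ⟨a3, a2⟩
      · rintro ⟨a1, a2⟩
        exact ⟨by omega, a2, a1⟩
    rw [e1, e2]
    exact hmain
  · intro π hπ
    have := Pool.Agent.Q95.CW.maj_add_maj (fun i => (π i : ℕ))
      (Pool.Agent.Q95.CW.val (Pool.Agent.Q95.CW.wd (L t) π)) (fun i hi => step t π hπ i hi)
    have e : 2 * t * (2 * t - 1) = 2 * (t * (2 * t - 1)) := by ring
    rw [e] at this
    exact Nat.eq_of_mul_eq_mul_left (by norm_num) this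

end Pool.Agent.Results.MP_28c202_co.MajNE
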